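import Mathlib
import Pool.Agent.Y229.PS.Gen

/-!
# The local strong monodromy conjecture for functions on generic re-embedded germs

Let `V = {l_1(x, z) = ⋯ = l_k(x, z) = 0} ⊆ ℂ ^ (N + k)` be a smooth germ at the origin on which
`x = (x_1, …, x_N)` are coordinates, and let the germ `f(x)` be the restriction to `V` of a polynomial
`F(x, z)`. The exponents of the `l_i` and of `F` are arbitrary, and their coefficients are generic (at
some exponents, for instance at the vertices of the Newton polyhedra; the other terms are
arbitrary). We prove that `b_f(s) Z_f(s)` is a polynomial, where `b_f` is the Bernstein-Sato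
polynomial of the germ `f` and `Z_f` is its local topological zeta function: every pole of `Z_f` is a
root of `b_f`, of at least the same order. This is the strong monodromy conjecture for
`f = F(x, z(x))`, where `z(x)` is the solution of generic equations `l_i(x, z) = 0`, in particular for
generic compositions `f = Φ(x, f_1(x), …, f_k(x))`, such as `f = f_1 ^ 2 + x_1 ^ 5 f_2 ^ 3`, products of
powers `∏ f_j ^ (m_j)`, `((x_2 ^ 2 - x_1 ^ 3) ^ 2 - x_1 ^ 5 x_2) ^ 2 + …`, and so on. These `f` are in
general degenerate with respect to their Newton polyhedra, in all coordinates, not reduced, and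
their singularities are not isolated.

Method. The function `f + y_1 z_1 + ⋯ + y_k z_k` becomes `g = F + ∑ y_i l_i` in other formal
coordinates at the origin, a polynomial with generic coefficients at some exponents. If
`b_f(s) = (s + 1) c(s)`, then `c(s) f ^ s ∈ D[s] (f, ∂_1 f, …, ∂_N f) f ^ s`, and we show that this gives a
functional equation of `f + ∑ y_i z_i` with `(s + 1) c(s + k)`. By the theorem for generic
coefficients (`W425.GN.gen_topL`), `(s + 1) c(s + k) Z_g(s)` is a polynomial. Finally `Z_f` and `Z_g` are
related by `1 - Z_f(s) = (1 - Z_g(s - k)) s (s - k + 1) / ((s - k) (s + 1))`.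
-/

set_option autoImplicit false

namespace Pool.Agent.Results.MP_6163c8_ag.GenericCompleteIntersections

open Polynomial Pool.Agent.W425.SM Pool.Agent.W422.GC
open Pool.Agent.Y229.RE (unstab ex)
open Pool.Agent.Y229.PS

/-- **The strong monodromy conjecture, with multiplicities, for the local topological zeta
functions of functions on generic smooth complete intersections.**

`IsFormalBFunction f b` says that `b(s) f ^ s = P(s) f ^ (s + 1)` for a differential operator `P(s)`
with formal (in particular convergent) power series coefficients, for the formal (in particular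
convergent) power series `f`; for example `b = b_f`, the Bernstein-Sato polynomial of the germ.

First part. Let `g_a = ∑_j a_j X ^ (v j) + h` in `M` variables, where the `v j ≠ 0` are distinct, `h` has
coefficients in the field `F ⊆ ℂ` and exponents in the Newton polyhedron of the `v j` (`NP v`). There is a
nonzero polynomial `g` over `F` such that for all `a ∈ ℂ ^ r` with `g(a) ≠ 0` the following holds. Let
`M = N + 2 k` and let `f ∈ ℂ[[x_1, …, x_N]]`, `f ≠ 0`, `f(0) = 0`, be such that `f(x) + ∑_{i ≤ k} y_i z_i`
becomes `g_a`, up to a unit factor, in suitable formal coordinates at the origin (`Becomes`). Then `b(s) (s - k) Z_f(s)` is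
a polynomial for every `b` with `IsFormalBFunction f b`; so every pole `s0 ≠ k` of `Z_f` is a root of
`b`, of at least the same order (all the poles of `Z_f` are negative rational numbers). Here
`Z_f = unstab k 1 Z`, that is `1 - Z_f(s) = (1 - Z(s - k)) s (s - k + 1) / ((s - k) (s + 1))`, where
`Z = topZetaGLocal v R` is the local topological zeta function of `g_a`, computed on the toric
embedded resolution given by any smooth fan `R` on which the ideal `(X ^ (v j))_j` becomes principal.

Second part. The case of functions on generic smooth complete intersections. Let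
`tup π m a H i = ∑_{π j = i} a_j x ^ (m_j) + H_i` for `i = 0, …, k` be polynomials in `N + k` variables
`x, z`; the `m_j` are not zero, the `H_i` have coefficients in `F`, and their exponents are in the
Newton polyhedron of the `m_j` with `π j ∈ {0, i}` (`NPT π m i`). Put `F_a = tup π m a H 0`,
`l_i = tup π m a H i`, `i = 1, …, k`. There is a nonzero polynomial `g` such that for all `a` with
`g(a) ≠ 0` the following holds. If the matrix of the `∂ l_i / ∂ z_j` is invertible at the origin (so
that `V = {l = 0}` is smooth with coordinates `x`), and if `f ∈ ℂ[[x]]`, `f ≠ 0`, is the restriction of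
`F_a` to `V`, that is `F_a = f + ∑ q_i l_i` with formal power series `q_i`, and if `q_i(0) = 0` (which
is automatic if `F_a` has no linear part), then the same conclusion holds for `f`, with the
exponents `ex π m` of `F_a + ∑ y_i l_i`. -/
theorem result :
    (∀ {M r : ℕ}, 1 ≤ r → ∀ (F : Subfield ℂ) (v : Fin r → Fin M → ℕ), Function.Injective v →
      (∀ j, v j ≠ 0) → ∀ h : MvPolynomial (Fin M) F,
      (∀ w ∈ h.support, Pool.Agent.W425.SV.NP v w) →
      ∃ g : MvPolynomial (Fin r) F, g ≠ 0 ∧ ∀ a : Fin r → ℂ, MvPolynomial.aeval a g ≠ 0 →
        ∀ (N k : ℕ) (e : M = N + (k + k)) (f : MvPowerSeries (Fin N) ℂ), f ≠ 0 →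
          MvPowerSeries.constantCoeff f = 0 →
          Becomes f k (MvPolynomial.rename (Fin.cast e)
            (sparse v a + MvPolynomial.map (algebraMap F ℂ) h)) →
        ∀ b : ℂ[X], IsFormalBFunction f b → ∀ R : SmoothFan M, Principal v R →
          ∃ P : ℂ[X], algebraMap ℂ[X] (RatFunc ℂ) (b * (X - C (k : ℂ))) *
            unstab k 1 (topZetaGLocal v R) = algebraMap ℂ[X] (RatFunc ℂ) P) ∧
    (∀ {N k r : ℕ}, 1 ≤ r → ∀ (F : Subfield ℂ) (π : Fin r → Fin (k + 1))
      (m : Fin r → Fin (N + k) → ℕ), (∀ j j', π j = π j' → m j = m j' → j = j') →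
      (∀ j, m j ≠ 0) → ∀ H : Fin (k + 1) → MvPolynomial (Fin (N + k)) F,
      (∀ i, ∀ w ∈ (H i).support, NPT π m i w) →
      ∃ g : MvPolynomial (Fin r) F, g ≠ 0 ∧ ∀ a : Fin r → ℂ, MvPolynomial.aeval a g ≠ 0 →
        (Matrix.of fun i j : Fin k => MvPolynomial.coeff (Finsupp.single (Fin.natAdd N j) 1)
          (tup π m a H i.succ)).det ≠ 0 →
        ∀ (f : MvPowerSeries (Fin N) ℂ) (q : Fin k → MvPowerSeries (Fin (N + k)) ℂ), f ≠ 0 →
          (∀ i, MvPowerSeries.constantCoeff (q i) = 0) →
          (tup π m a H 0 : MvPowerSeries (Fin (N + k)) ℂ) =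
            MvPowerSeries.rename (Fin.castAdd k) f +
              ∑ i, q i * (tup π m a H i.succ : MvPowerSeries (Fin (N + k)) ℂ) →
        ∀ b : ℂ[X], IsFormalBFunction f b →
        ∀ R : SmoothFan (N + (k + k)), Principal (ex π m) R →
          ∃ P : ℂ[X], algebraMap ℂ[X] (RatFunc ℂ) (b * (X - C (k : ℂ))) *
            unstab k 1 (topZetaGLocal (ex π m) R) = algebraMap ℂ[X] (RatFunc ℂ) P) :=
  ⟨fun hr F v hv hv0 h hh => strong hr F v hv hv0 h hh,
    fun hr F π m hinj hm H hH => ci_strong hr F π m hinj hm H hH⟩

end Pool.Agent.Results.MP_6163c8_ag.GenericCompleteIntersections
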