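import Pool.Agent.Y230.TL.Fin
import Pool.Agent.Y230.TL.A
import Pool.Agent.Y230.TL.U
import Pool.Agent.Y64.TL.ExpB
import Pool.Agent.Y475.TL.L
import Pool.Agent.Y448.TL.J

/-!
# The monodromy conjecture at the origin for Thom-Sebastiani sums `∑ y_j f_j(x) + g(z)`

We prove: every pole of the local topological zeta function of `F` at the origin is
a root of the local Bernstein-Sato polynomial of `F`, for the following germs `F`.

Let `𝓘` and `𝓗` be the least classes of germs of ideals and of hypersurfaces at the origin with the
following properties.

* `𝓘` contains the unit ideal; the powers `(x ^ m)`; all non-zero ideals of `ℂ[x, y]`; the ideals of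
  `ℂ[x₀, x₁, x₂]` generated by forms of the same degree, three of which are algebraically independent;
  the ideals generated by forms of the same degree without a common zero outside the origin; the
  principal ideals `(g)` with very general coefficients at the vertices of the Newton polyhedron;
  the principal ideals `(h)` with `h` in `𝓗`; and `𝓘` is closed under sums and products in disjoint
  sets of variables.
* `𝓗` contains the plane curves whose zeta function has at most a simple pole at `-1`, and the
  polynomials with very general coefficients at the vertices of the Newton polyhedron, with the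
  same condition; for `(f_j)` in `𝓘` and `g` in `𝓗`, `g(0) = 0`, it contains `∑ y_j f_j(x)`
  and `∑ y_j f_j(x) + g(z)`, with new variables `y_j`; and `𝓗` is closed under dropping variables which
  do not occur.

The second part treats `∏ t, F_t ^ a t`, `F_t = ∑_j y_{t,j} f_{t,j}(x)`, for the ideals
`∏ t, (f_{t,j})_j ^ a t` in `𝓘`.

For `F = ∑ y_j f_j(x) + g(z)` the zeta function is obtained from the ones of `(f_j)` and `g` by a
product of exponential polynomials, see `Pool/Agent/Y230/TL/Defs`, so that the poles `≠ -1` are among
the sums `α + β`, where `α` is a pole of `Z_I` and `β` a pole of `(s + 1) Z_g`; and `α + β` is a root of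
`b_F(s) / (s + 1)`: consider all functional equations `(s + 1) B(x, s) F ^ s = P(s) F ^ (s + 1)` with
polynomial coefficients `B(x, s)`; if `B(0, β) = 0` for all those of `g` and `B(0, α) = 0` for all those
of `(f_j)` (without the factor `s + 1`), then `B(0, α + β) = 0` for those of `F`, by the microlocal
description of the functional equations.
-/

set_option autoImplicit false

namespace Pool.Agent.Results.MP_6163c8_ag.ThomSebastianiLocal

open MvPolynomial Pool.Agent.W574.SM Pool.Agent.W574.RO Pool.Agent.H628R4.TP Pool.Agent.TH192.DT
  Pool.Agent.Y229 Pool.Agent.Y230.TL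

/-- **The strong monodromy conjecture at the origin for Thom-Sebastiani sums.** Let
`TT (Fi StrongLocal) StrongHyp c A Z` be the classes of germs of ideals (`c = false`) and of
hypersurfaces (`c = true`) at the origin with their local topological zeta functions `Z` which are
obtained from the ideals in the first class (with finitely many variables, `Fi`) and the
hypersurfaces in the second class by sums and products in disjoint sets of variables, by
`∑ y_j f_j(x)` and by `∑ y_j f_j(x) + g(z)`.

(1) Let `F` be a polynomial with `TT (Fi StrongLocal) StrongHyp false (F) Z`, and let `b` satisfy a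
functional equation `b(s) F ^ s = P(s) F ^ (s + 1)`, where `P(s)` is a differential operator with formal
power series coefficients. Then `b(s₀) = 0` for every pole `s₀` of `Z`.

(2) Let the `f_{t,j}` be polynomials in finitely many variables `x_i`, let
`F_t = ∑_j y_{t,j} f_{t,j}(x)` (`blockForm`) and `F = ∏ t, F_t ^ a t` (`powProd`), `a t ≥ 1`, and let
the ideal `∏ t, (f_{t,j})_j ^ a t`, which is generated by the family `powFam a f`, be in the class, with
the local topological zeta function `Z'`. The local topological zeta function of `F` at the origin is
`Z' ∏ t, 1 / (1 + a t s)`. Let `b` satisfy a functional equation of `F` as in (1). Then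
`b(s₀) = 0` for every pole `s₀` of `Z' ∏ t, 1 / (1 + a t s)`. -/
theorem result :
    (∀ (σ : Type) (F : MvPolynomial σ ℂ) (Z : RatFunc ℂ),
      TT (Fi StrongLocal) StrongHyp false ⟨σ, Fin 1, fun _ => F⟩ Z →
      ∀ b : Polynomial ℂ, IsLocalBFunction F b →
      ∀ s₀ : ℂ, Z.denom.eval s₀ = 0 → b.eval s₀ = 0) ∧
    (∀ (σ T : Type) [Finite σ] [Fintype T] [DecidableEq T] [Nonempty T] (κ : T → Type)
      [∀ t, Fintype (κ t)] (a : T → ℕ), (∀ t, 1 ≤ a t) →
      ∀ (f : (t : T) → κ t → MvPolynomial σ ℂ) (Z' : RatFunc ℂ),
      TT (Fi StrongLocal) StrongHyp false (powFam a f) Z' →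
      ∀ b : Polynomial ℂ, IsLocalBFunction (powProd a f) b →
      ∀ s₀ : ℂ, (Z' * ∏ t, fac (a t) 1).denom.eval s₀ = 0 → b.eval s₀ = 0) := by
  classical
  have hJ : StJ := Pool.Agent.Y448.TL.tJ tA Pool.Agent.Y64.TL.tB
  have hU : StU := tU Pool.Agent.Y64.TL.tB
  have hL : StL := Pool.Agent.Y475.TL.tL
  refine ⟨fun σ F Z h b hb s₀ hs => tl_strong hJ hU hL F Z h b hb s₀ hs, ?_⟩
  intro σ T _ _ _ _ κ _ a ha f Z' h b hb s₀ hs
  exact tl_strong_pow hJ hU hL a ha f Z' h b hb s₀ hs

end Pool.Agent.Results.MP_6163c8_ag.ThomSebastianiLocal
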